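import Mathlib
import Pool.Agent.Helper79.Kurepa.Final

/-!
# KH(ℵ_n, ℵ_0) does not imply KH(ℵ_n, ℵ_1) under GCH, relative to two inaccessible cardinals

For every `n ≥ 2`, every countable model of ZFC + GCH with two inaccessible cardinals has an end
extension with the same ordinals which is a model of ZFC + GCH, in which `KH(ℵ_n, ℵ_0)` holds and
`KH(ℵ_n, ℵ_1)` fails.  In particular, if there is a model of ZFC + GCH with two inaccessible cardinals,
then there is a model of ZFC + GCH + `KH(ℵ_n, ℵ_0)` + the negation of `KH(ℵ_n, ℵ_1)`.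
-/

open Pool.Agent.Helper79.ZF Pool.Agent.Helper79.Kurepa

theorem Pool.Agent.Results.MP_3c4454_lc.Separation.result : ∀ n : ℕ, 2 ≤ n →
    (∀ (M : Type) [Membership M M] [Countable M], ZFCModel M → GCH M → TwoInacc M →
      ∃ (N : Type) (_ : Membership N N), ZFCModel N ∧ GCH N ∧ KH N n 0 ∧ ¬ KH N n 1 ∧ ∃ ι : M → N, OrdEndExt ι) ∧
    ((∃ (M : Type) (_ : Membership M M), ZFCModel M ∧ GCH M ∧ TwoInacc M) →
      ∃ (N : Type) (_ : Membership N N), ZFCModel N ∧ GCH N ∧ KH N n 0 ∧ ¬ KH N n 1) := by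
  intro n hn
  refine ⟨fun M _ _ h1 h2 h3 => main_countable hn M h1 h2 h3, ?_⟩
  rintro ⟨M, mM, h1, h2, h3⟩
  obtain ⟨S, mS, hS, h4, h5, h6⟩ := exists_countable_zfc M h1 h2 h3
  obtain ⟨N, mN, h7, h8, h9, h10, _⟩ := main_countable hn S h4 h5 h6
  exact ⟨N, mN, h7, h8, h9, h10⟩
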